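import Pool.Agent.N549.AB.Stm
import Pool.Agent.N424.HG.Canon

/-!
# AB/CANX: the canonical form with explicit errors
-/

set_option autoImplicit false

namespace Pool.Agent.N344.AB

open Finset
open Pool.Agent.N424.HG (log_low log_up log_fact_up log_fact_low summ term_le T1 T2 he4)

/-- lower tail -/
theorem R1 {D e h σ k : ℝ} (hD : 0 < D) (hh : 0 < h) (hh1 : h ≤ 1 / 4)
    (heh : e ≤ h ^ 2 / 48) (hσ : 0 < σ) (hk : 12 ≤ h ^ 2 * k) (hσk : σ = k * D) :
    σ * (Real.log (1 + h) + h * σ) + (σ + σ ^ 2 / 2 + e * σ) + 2 * D ≤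
      (1 + h) * σ + ((1 + h) * σ) ^ 2 / 2 - e * ((1 + h) * σ) := by
  have hl := log_up hh.le (by linarith)
  have h1 : σ * Real.log (1 + h) ≤ σ * (h - h ^ 2 / 4) := mul_le_mul_of_nonneg_left hl hσ.le
  have h2 : 12 * D ≤ h ^ 2 * σ := by
    rw [hσk]
    have := mul_le_mul_of_nonneg_right hk hD.le
    linarith
  have h3 : e * σ ≤ h ^ 2 / 48 * σ := mul_le_mul_of_nonneg_right heh hσ.le
  have h4 : e * (h * σ) ≤ h ^ 2 / 48 * (h * σ) :=
    mul_le_mul_of_nonneg_right heh (by positivity)
  have h5 : h ^ 2 * σ * h ≤ h ^ 2 * σ * (1 / 4) := mul_le_mul_of_nonneg_left hh1 (by positivity)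
  have h6 : 0 ≤ h ^ 2 * σ ^ 2 := by positivity
  have h7 : 0 < h ^ 2 * σ := by positivity
  nlinarith

/-- upper tail -/
theorem R2 {D e h s b k : ℝ} (hD : 0 < D) (hh : 0 < h) (hh1 : h ≤ 1 / 4)
    (heh : e ≤ h ^ 2 / 48) (hs : 0 < s) (hk : 12 ≤ h ^ 2 * k) (hsk : k * D ≤ s)
    (hb : (1 + h) * s - D ≤ b) :
    -(b * (Real.log (1 + h) + h * s)) +
      ((1 + h) * s + ((1 + h) * s) ^ 2 / 2 + e * ((1 + h) * s)) + 2 * D ≤
      s + s ^ 2 / 2 - e * s := by
  have hl := log_low hh.le (by linarith)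
  have hl2 := log_up hh.le (by linarith)
  have hl0 : 0 ≤ Real.log (1 + h) := Real.log_nonneg (by linarith)
  have h0 : ((1 + h) * s - D) * (Real.log (1 + h) + h * s) ≤ b * (Real.log (1 + h) + h * s) :=
    mul_le_mul_of_nonneg_right hb (by positivity)
  have h1 : s * (h + h ^ 2 / 3) ≤ s * ((1 + h) * Real.log (1 + h)) :=
    mul_le_mul_of_nonneg_left hl hs.le
  have h2 : 12 * D ≤ h ^ 2 * s := by
    have e1 := mul_le_mul_of_nonneg_right hk hD.le
    have e2 := mul_le_mul_of_nonneg_left hsk (sq_nonneg h)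
    linarith
  have h3 : e * s ≤ h ^ 2 / 48 * s := mul_le_mul_of_nonneg_right heh hs.le
  have h4 : e * (h * s) ≤ h ^ 2 / 48 * (h * s) :=
    mul_le_mul_of_nonneg_right heh (by positivity)
  have h5 : h ^ 2 * s * h ≤ h ^ 2 * s * (1 / 4) := mul_le_mul_of_nonneg_left hh1 (by positivity)
  have h6 : D * Real.log (1 + h) ≤ D * (1 / 4) := by
    refine mul_le_mul_of_nonneg_left ?_ hD.le
    nlinarith
  have h7 : 12 * D * (h * s) ≤ h ^ 2 * s * (h * s) := mul_le_mul_of_nonneg_right h2 (by positivity)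
  have h8 : h ^ 2 * s * (h * s) ≤ h ^ 2 * s * (1 / 4 * s) := by
    refine mul_le_mul_of_nonneg_left ?_ (by positivity)
    exact mul_le_mul_of_nonneg_right hh1 hs.le
  have h9 : 0 < h ^ 2 * s := by positivity
  have h10 : 0 < h ^ 2 * s ^ 2 := by positivity
  nlinarith

theorem T4' {P : ℕ → ℝ} (hP : ∀ k, 0 ≤ P k ∧ P k ≤ 1) {x : ℝ} (hx : 0 < x) {k m : ℕ} {Z : ℝ}
    (hm : 1 ≤ m) (hZ0 : 0 < Z)
    (hZ : Z = ∑' k : ℕ, x ^ k / k.factorial * P k)
    (h1 : ∑ j ∈ range k, x ^ j / j.factorial * P j ≤ Z / 4)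
    (h2 : ∑' j : ℕ, x ^ (j + m) / (j + m).factorial * P (j + m) ≤ Z / 4) :
    ∃ j, k ≤ j ∧ j < m ∧ Z / (4 * m) ≤ x ^ j / j.factorial * P j := by
  have hs := (summ hP hx.le).sum_add_tsum_nat_add m
  rw [← hZ] at hs
  have hm0 : (0 : ℝ) < m := by exact_mod_cast hm
  have h3 : ∑ j ∈ range m, x ^ j / j.factorial * P j ≤
      Z / 4 + ∑ j ∈ (range m).filter (fun j => ¬ j < k), x ^ j / j.factorial * P j := by
    rw [← sum_filter_add_sum_filter_not (range m) (fun j => j < k)]
    refine add_le_add_left (le_trans ?_ h1) _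
    refine sum_le_sum_of_subset_of_nonneg ?_ fun j _ _ => mul_nonneg (by positivity) (hP j).1
    intro j hj
    exact mem_range.2 (mem_filter.1 hj).2
  by_contra hcon
  push Not at hcon
  have h5 : ∑ j ∈ (range m).filter (fun j => ¬ j < k), x ^ j / j.factorial * P j ≤
      ∑ j ∈ (range m).filter (fun j => ¬ j < k), Z / (4 * m) := by
    refine sum_le_sum fun j hj => ?_
    obtain ⟨hj1, hj2⟩ := mem_filter.1 hj
    exact (hcon j (not_lt.1 hj2) (mem_range.1 hj1)).le
  rw [sum_const, nsmul_eq_mul] at h5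
  have h6 : (((range m).filter (fun j => ¬ j < k)).card : ℝ) ≤ m := by
    have : ((range m).filter (fun j => ¬ j < k)).card ≤ m := by
      simpa using card_filter_le (range m) (fun j => ¬ j < k)
    exact_mod_cast this
  have h7 : (((range m).filter (fun j => ¬ j < k)).card : ℝ) * (Z / (4 * m)) ≤
      m * (Z / (4 * m)) := mul_le_mul_of_nonneg_right h6 (by positivity)
  have h8 : (m : ℝ) * (Z / (4 * m)) = Z / 4 := by field_simp
  linarith

theorem log_625 {x : ℝ} (hx : 0 < x) {y : ℝ} (hy : 0 < y) (h : y ≤ 25 / 4 * x) :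
    Real.log y ≤ Real.log x + 2 := by
  have h1 : Real.log y ≤ Real.log (25 / 4 * x) := Real.log_le_log hy h
  rw [Real.log_mul (by norm_num) hx.ne'] at h1
  have h2 : Real.log (25 / 4) ≤ 2 := by
    rw [Real.log_le_iff_le_exp (by norm_num)]
    have h3 := Real.exp_one_gt_d9
    have h4 : Real.exp 2 = Real.exp 1 * Real.exp 1 := by rw [← Real.exp_add]; norm_num
    rw [h4]
    nlinarith
  linarith

set_option maxHeartbeats 2000000 in
theorem canx : Pool.Agent.N549.AB.S_CANX := by
  intro D e h W P hD he hh hh1 heh hA hP hZ k hk1 hk12 hkW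
  have hk0 : (0 : ℝ) < k := by exact_mod_cast hk1
  obtain ⟨a, ha⟩ : ∃ a : ℝ, a = k * D := ⟨_, rfl⟩
  rw [← ha] at hkW
  have ha0 : 0 < a := by rw [ha]; positivity
  have hkD : k = a / D := by rw [ha]; field_simp
  obtain ⟨w, hw⟩ : ∃ w : ℝ, w = (1 + h) * a := ⟨_, rfl⟩
  have haw : a ≤ w := by rw [hw]; exact le_mul_of_one_le_left ha0.le (by linarith)
  have hw0 : 0 < w := by linarith
  obtain ⟨w₂, hw₂⟩ : ∃ w₂ : ℝ, w₂ = (1 + h) * w := ⟨_, rfl⟩
  have hww : w ≤ w₂ := by rw [hw₂]; exact le_mul_of_one_le_left hw0.le (by linarith)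
  have hw20 : 0 < w₂ := by linarith
  have hw2a : w₂ = (1 + h) ^ 2 * a := by rw [hw₂, hw]; ring
  have hw2W : w₂ ≤ W := by rw [hw2a]; exact hkW
  have hwW : w ≤ W := hww.trans hw2W
  have haW : a ≤ W := haw.trans hwW
  have he1 : e < 1 := by nlinarith
  obtain ⟨Z, hZd⟩ : ∃ Z : ℝ → ℝ, Z = fun w =>
    ∑' k : ℕ, (w * Real.exp w / D) ^ k / k.factorial * P k := ⟨_, rfl⟩
  have hZ' : ∀ w, 0 < w → w ≤ W → w + w ^ 2 / 2 - e * w ≤ D * Real.log (Z w) ∧
      D * Real.log (Z w) ≤ w + w ^ 2 / 2 + e * w := by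
    intro w hw hwW
    have h1 := abs_le.1 (hZ w hw hwW)
    rw [hZd]
    constructor
    · linarith [h1.1]
    · linarith [h1.2]
  have hlam : ∀ w : ℝ, 0 < w → 0 < w * Real.exp w / D := fun w hw => by positivity
  have hZn : ∀ w, 0 < w → 0 ≤ Z w := by
    intro w hw
    rw [hZd]
    exact tsum_nonneg fun j => mul_nonneg (by have := (hlam w hw).le; positivity) (hP j).1
  have hZp : ∀ w, 0 < w → w ≤ W → 0 < Z w := by
    intro w hw hwW
    rcases (hZn w hw).eq_or_lt with h | h
    · exfalso
      have h1 := (hZ' w hw hwW).1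
      rw [← h, Real.log_zero, mul_zero] at h1
      have : e * w < 1 * w := mul_lt_mul_of_pos_right he1 hw
      have : 0 < w ^ 2 / 2 := by positivity
      linarith
    · exact h
  have hZup : ∀ w, 0 < w → w ≤ W → Z w ≤ Real.exp ((w + w ^ 2 / 2 + e * w) / D) := by
    intro w hw hwW
    rw [← Real.log_le_iff_le_exp (hZp w hw hwW), le_div_iff₀ hD]
    linarith [(hZ' w hw hwW).2]
  have hZlow : ∀ w, 0 < w → w ≤ W → Real.exp ((w + w ^ 2 / 2 - e * w) / D) ≤ Z w := by
    intro w hw hwW
    rw [← Real.le_log_iff_exp_le (hZp w hw hwW), div_le_iff₀ hD]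
    linarith [(hZ' w hw hwW).1]
  -- the upper bound
  have hupper : 0 < P k → Real.log (P k) + k ^ 2 * D / 2 ≤ e * k + Real.log k + 1 := by
    intro hPk
    have h1 := term_le hP (hlam a ha0).le k
    have h2 : Real.log ((a * Real.exp a / D) ^ k / k.factorial * P k) ≤
        (a + a ^ 2 / 2 + e * a) / D := by
      have hl := hlam a ha0
      rw [Real.log_le_iff_le_exp (by positivity)]
      refine h1.trans ?_
      have := hZup a ha0 haW
      rw [hZd] at this
      exact this
    have hl := hlam a ha0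
    rw [Real.log_mul (by positivity) hPk.ne', Real.log_div (by positivity) (by positivity),
      Real.log_pow] at h2
    have h3 : Real.log (a * Real.exp a / D) = Real.log k + a := by
      have : a * Real.exp a / D = k * Real.exp a := by rw [hkD]; ring
      rw [this, Real.log_mul hk0.ne' (Real.exp_pos _).ne', Real.log_exp]
    rw [h3] at h2
    have h4 := log_fact_up k hk1
    have h5 : (a + a ^ 2 / 2 + e * a) / D = k + k * a / 2 + e * k := by
      rw [hkD]
      ring
    rw [h5] at h2
    have h6 : (k : ℝ) ^ 2 * D = k * a := by rw [ha]; ring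
    rw [h6]
    linarith
  -- the cut
  obtain ⟨m, hm⟩ : ∃ m : ℕ, m = ⌊w₂ / D⌋₊ := ⟨_, rfl⟩
  have hm1 : (m : ℝ) * D ≤ w₂ := by
    rw [hm, ← le_div_iff₀ hD]
    exact Nat.floor_le (by positivity)
  have hm2 : w₂ - D ≤ m * D := by
    have := Nat.lt_floor_add_one (w₂ / D)
    rw [← hm, div_lt_iff₀ hD] at this
    linarith
  have hkm : k ≤ m := by
    rw [hm]
    apply Nat.le_floor
    rw [le_div_iff₀ hD, ← ha]
    linarith
  have hm0 : 1 ≤ m := hk1.trans hkm
  have hm0' : (0 : ℝ) < m := by exact_mod_cast hm0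
  have he2 : Real.exp (-2) ≤ 1 / 4 := he4
  -- the lower tail
  have ht1 : ∑ j ∈ range k, (w * Real.exp w / D) ^ j / j.factorial * P j ≤ Z w / 4 := by
    have hmono : a * Real.exp a / D ≤ w * Real.exp w / D := by
      apply div_le_div_of_nonneg_right _ hD.le
      exact mul_le_mul haw (Real.exp_le_exp.2 haw) (Real.exp_pos _).le hw0.le
    refine (T1 hP (hlam a ha0) hmono k).trans ?_
    have h1 := hZup a ha0 haW
    rw [hZd] at h1
    have h2 : ((w * Real.exp w / D) / (a * Real.exp a / D)) ^ k =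
        Real.exp (k * (Real.log (1 + h) + h * a)) := by
      have e1 : (w * Real.exp w / D) / (a * Real.exp a / D) =
          Real.exp (Real.log (1 + h) + h * a) := by
        rw [Real.exp_add, Real.exp_log (by positivity), hw]
        have e2 : Real.exp ((1 + h) * a) = Real.exp (h * a) * Real.exp a := by
          rw [← Real.exp_add]
          congr 1
          ring
        rw [e2]
        have := (Real.exp_pos a).ne'
        field_simp
      rw [e1, ← Real.exp_nat_mul]
    rw [h2]
    refine (mul_le_mul_of_nonneg_left h1 (Real.exp_pos _).le).trans ?_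
    rw [← Real.exp_add]
    have h3 := R1 hD hh hh1 heh ha0 hk12 ha
    rw [← hw] at h3
    have h4 : k * (Real.log (1 + h) + h * a) + (a + a ^ 2 / 2 + e * a) / D ≤
        (w + w ^ 2 / 2 - e * w) / D + -2 := by
      have e1 : k * (Real.log (1 + h) + h * a) + (a + a ^ 2 / 2 + e * a) / D =
          (a * (Real.log (1 + h) + h * a) + (a + a ^ 2 / 2 + e * a)) / D := by
        rw [hkD]
        ring
      have e2 : (w + w ^ 2 / 2 - e * w) / D + -2 =
          ((w + w ^ 2 / 2 - e * w) - 2 * D) / D := by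
        field_simp
        ring
      rw [e1, e2]
      apply div_le_div_of_nonneg_right _ hD.le
      linarith
    refine (Real.exp_le_exp.2 h4).trans ?_
    rw [Real.exp_add]
    have h5 := mul_le_mul (hZlow w hw0 hwW) he2 (Real.exp_pos _).le (hZn w hw0)
    linarith
  -- the upper tail
  have ht2 : ∑' j : ℕ, (w * Real.exp w / D) ^ (j + m) / (j + m).factorial * P (j + m) ≤
      Z w / 4 := by
    have hmono : w * Real.exp w / D ≤ w₂ * Real.exp w₂ / D := by
      apply div_le_div_of_nonneg_right _ hD.le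
      exact mul_le_mul hww (Real.exp_le_exp.2 hww) (Real.exp_pos _).le hw20.le
    refine (T2 hP (hlam w hw0) hmono m).trans ?_
    have h1 := hZup w₂ hw20 hw2W
    rw [hZd] at h1
    have h2 : ((w * Real.exp w / D) / (w₂ * Real.exp w₂ / D)) ^ m =
        Real.exp (m * -(Real.log (1 + h) + h * w)) := by
      have e1 : (w * Real.exp w / D) / (w₂ * Real.exp w₂ / D) =
          Real.exp (-(Real.log (1 + h) + h * w)) := by
        rw [Real.exp_neg, Real.exp_add, Real.exp_log (by positivity), hw₂]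
        have e2 : Real.exp ((1 + h) * w) = Real.exp (h * w) * Real.exp w := by
          rw [← Real.exp_add]
          congr 1
          ring
        rw [e2]
        have := (Real.exp_pos w).ne'
        have := (Real.exp_pos (h * w)).ne'
        field_simp
      rw [e1, ← Real.exp_nat_mul]
    rw [h2]
    refine (mul_le_mul_of_nonneg_left h1 (Real.exp_pos _).le).trans ?_
    rw [← Real.exp_add]
    have h3 := R2 (b := m * D) hD hh hh1 heh hw0 hk12 (by rw [← ha]; exact haw)
      (by rw [← hw₂]; exact hm2)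
    rw [← hw₂] at h3
    have h4 : m * -(Real.log (1 + h) + h * w) + (w₂ + w₂ ^ 2 / 2 + e * w₂) / D ≤
        (w + w ^ 2 / 2 - e * w) / D + -2 := by
      have e1 : m * -(Real.log (1 + h) + h * w) + (w₂ + w₂ ^ 2 / 2 + e * w₂) / D =
          (-(m * D * (Real.log (1 + h) + h * w)) + (w₂ + w₂ ^ 2 / 2 + e * w₂)) / D := by
        field_simp
      have e2 : (w + w ^ 2 / 2 - e * w) / D + -2 =
          ((w + w ^ 2 / 2 - e * w) - 2 * D) / D := by
        field_simp
        ring
      rw [e1, e2]
      apply div_le_div_of_nonneg_right _ hD.le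
      linarith
    refine (Real.exp_le_exp.2 h4).trans ?_
    rw [Real.exp_add]
    have h5 := mul_le_mul (hZlow w hw0 hwW) he2 (Real.exp_pos _).le (hZn w hw0)
    linarith
  have hZw := hZp w hw0 hwW
  obtain ⟨j, hkj, hjm, hj⟩ := T4' hP (hlam w hw0) (k := k) (Z := Z w) hm0 hZw (by rw [hZd]) ht1 ht2
  have hj1 : 1 ≤ j := hk1.trans hkj
  have hj0 : (0 : ℝ) < j := by exact_mod_cast hj1
  have hPj : 0 < P j := by
    rcases (hP j).1.eq_or_lt with h | h
    · exfalso
      rw [← h, mul_zero] at hj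
      have : 0 < Z w / (4 * m) := by positivity
      linarith
    · exact h
  have hPk : 0 < P k := lt_of_lt_of_le hPj (hA hkj)
  refine ⟨hPk, ?_⟩
  -- logarithms
  have hlower : -(1 / 2 + h) * w ^ 2 - e * w - D * Real.log (4 * m) ≤ D * Real.log (P k) := by
    have hlw := hlam w hw0
    have h0 : Real.log (P j) ≤ Real.log (P k) := Real.log_le_log hPj (hA hkj)
    have h1 : Real.log (Z w) - Real.log (4 * m) ≤ j * Real.log (w * Real.exp w / D) -
        Real.log j.factorial + Real.log (P j) := by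
      have := Real.log_le_log (by positivity) hj
      rw [Real.log_div hZw.ne' (by positivity), 
        Real.log_mul (by positivity) hPj.ne', Real.log_div (by positivity) (by positivity),
        Real.log_pow] at this
      exact this
    have h2 : Real.log (w * Real.exp w / D) = Real.log w + w - Real.log D := by
      rw [Real.log_div (by positivity) hD.ne', Real.log_mul hw0.ne' (Real.exp_pos _).ne',
        Real.log_exp]
    rw [h2] at h1
    have h3 := log_fact_low j hj1
    have h4 := (hZ' w hw0 hwW).1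
    obtain ⟨b, hb⟩ : ∃ b : ℝ, b = j * D := ⟨_, rfl⟩
    have hb0 : 0 < b := by rw [hb]; positivity
    have hbw : b ≤ (1 + h) * w := by
      rw [← hw₂, hb]
      refine le_trans ?_ hm1
      apply mul_le_mul_of_nonneg_right _ hD.le
      exact_mod_cast hjm.le
    have h5 : Real.log j = Real.log b - Real.log D := by
      rw [hb, Real.log_mul hj0.ne' hD.ne']
      ring
    have h6 : (w + w ^ 2 / 2 - e * w) + b * (Real.log b - Real.log w - 1 - w) -
        D * Real.log (4 * m) ≤ D * Real.log (P j) := by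
      have e1 := mul_le_mul_of_nonneg_left h1 hD.le
      have e2 := mul_le_mul_of_nonneg_left h3 hD.le
      rw [h5] at e2
      have e3 : D * (j * (Real.log b - Real.log D) - j) = b * (Real.log b - Real.log D) - b := by
        rw [hb]
        ring
      have e4 : D * (j * (Real.log w + w - Real.log D) -
          Real.log j.factorial + Real.log (P j)) = 
          b * (Real.log w + w - Real.log D) - D * Real.log j.factorial + D * Real.log (P j) := by
        rw [hb]
        ring
      rw [e4] at e1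
      rw [e3] at e2
      linarith
    have h7 : b * (Real.log b - Real.log w - 1 - w) ≥ -w - b * w := by
      have e1 := Real.one_sub_inv_le_log_of_pos (show 0 < b / w by positivity)
      rw [Real.log_div hb0.ne' hw0.ne', inv_div] at e1
      have e2 := mul_le_mul_of_nonneg_left e1 hb0.le
      have e3 : b * (1 - w / b) = b - w := by field_simp
      rw [e3] at e2
      linarith
    have h8 : b * w ≤ (1 + h) * w ^ 2 := by
      have := mul_le_mul_of_nonneg_right hbw hw0.le
      linarith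
    have h9 := mul_le_mul_of_nonneg_left h0 hD.le
    linarith
  have hlog : Real.log (4 * m) ≤ Real.log k + 2 := by
    refine log_625 hk0 (by positivity) ?_
    have e1 : (m : ℝ) * D ≤ 25 / 16 * k * D := by
      refine hm1.trans ?_
      rw [hw2a, mul_assoc, ← ha]
      refine mul_le_mul_of_nonneg_right ?_ ha0.le
      nlinarith
    have := le_of_mul_le_mul_right e1 hD
    linarith
  have h11 : w ^ 2 * (1 / 2 + h) ≤ a ^ 2 * (1 / 2 + 3 * h) := by
    rw [hw]
    have e1 : ((1 + h) * a) ^ 2 * (1 / 2 + h) = a ^ 2 * ((1 + h) ^ 2 * (1 / 2 + h)) := by ring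
    rw [e1]
    refine mul_le_mul_of_nonneg_left ?_ (sq_nonneg _)
    have e2 : h * h ≤ h * (1 / 4) := mul_le_mul_of_nonneg_left hh1 hh.le
    have e3 : h * h * h ≤ h * h * (1 / 4) := mul_le_mul_of_nonneg_left hh1 (by positivity)
    nlinarith
  have h12 : e * w ≤ 2 * (e * a) := by
    rw [hw]
    have f1 : h * (e * a) ≤ 1 / 4 * (e * a) := mul_le_mul_of_nonneg_right hh1 (by positivity)
    have f2 : 0 ≤ e * a := by positivity
    have f3 : e * ((1 + h) * a) = e * a + h * (e * a) := by ring
    rw [f3]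
    linarith
  have h6 : (k : ℝ) ^ 2 * D = a ^ 2 / D := by rw [ha]; field_simp
  have h6' : (k : ℝ) = a / D := hkD
  have hfin : -(1 / 2 + 3 * h) * ((k : ℝ) ^ 2 * D) - 2 * e * k - (Real.log k + 2) ≤
      Real.log (P k) := by
    have e1 : D * (-(1 / 2 + 3 * h) * ((k : ℝ) ^ 2 * D) - 2 * e * k - (Real.log k + 2)) ≤
        D * Real.log (P k) := by
      have e2 : D * (-(1 / 2 + 3 * h) * ((k : ℝ) ^ 2 * D) - 2 * e * k - (Real.log k + 2)) =
          -(1 / 2 + 3 * h) * a ^ 2 - 2 * (e * a) - D * (Real.log k + 2) := by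
        rw [ha]
        ring
      rw [e2]
      have e3 := mul_le_mul_of_nonneg_left hlog hD.le
      linarith
    exact le_of_mul_le_mul_left e1 hD
  have hek : 0 ≤ e * k := by positivity
  have hhk : 0 ≤ 3 * h * ((k : ℝ) ^ 2 * D) := by positivity
  have hlk : 0 ≤ Real.log k := Real.log_nonneg (by exact_mod_cast hk1)
  rw [abs_le]
  constructor
  · linarith
  · have := hupper hPk
    linarith

end Pool.Agent.N344.AB
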